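import Pool.Agent.Helper34.FF.Goals3
import Pool.Agent.Helper75.FF.StmtTri

/-!
# MP_7cb822_co, packet 980: three blobs, few bad vertices outside
-/

namespace Pool.Agent.Helper64.FF

open Finset
open Pool.Agent.Helper34.FF
open scoped symmDiff Classical

theorem pf_StmtThreeBlobs (hMax : StmtMaxCl) (hTypes : StmtTypes) (hGeo : StmtPairGeo)
    (hBar : StmtPairBar) (hMass : StmtMass) : StmtThreeBlobs := by
  intro V F _ _ T hS L e l B hB hL
  choose A hA using hMax V F T hS e l B hB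
  obtain ⟨tri1, tri2, tri3, tri4, -⟩ := Pool.Agent.Helper75.FF.pf_StmtTri V F T hS
  have hVbd : ∀ i, (T.Vbd (A i)).card ≤ l := fun i =>
    ((hMass V F T hS).1 (A i)).trans (hA i).1.2.2.le
  have hVin0 : T.Vin (∅ : Finset F) = ∅ := by
    rw [eq_empty_iff_forall_notMem]
    intro v hv
    simp only [Tri.Vin, mem_filter, mem_univ, true_and] at hv
    obtain ⟨f, hf⟩ := hS.face v
    exact absurd (hv f hf) (notMem_empty f)
  have hpair : ∀ i j k, i ≠ j → i ≠ k → j ≠ k → (T.Vin (A i ∩ A j)).card ≤ e := by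
    intro i j k hij hik hjk
    by_cases hne : (A i ∩ A j).Nonempty
    · obtain ⟨h, c₁, c₂, bA, bB, bAB, i1, i2, h1, h2, h3, h4, h5, h6, h7, h8, h9⟩ :=
        hGeo V F T hS e l B i j k (A i) (A j) hB hij hik hjk (hA i) (hA j) hne
      obtain ⟨w, hw, hbad⟩ := hB.wit k
      refine (hBar V F T hS e l (A i) (A j) h c₁ c₂ w bA bB bAB i1 i2 h1 h2 h3 h4 h5 h6 h7 h8 h9
        ?_ hbad).le
      simp only [Tri.Vin, mem_filter, mem_univ, true_and] at hw ⊢
      intro f hf
      have hfk := hw f hf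
      rw [mem_compl, mem_union, not_or]
      exact ⟨fun h' => disjoint_left.1 ((hA i).1.2.1 k hik.symm) h' hfk,
        fun h' => disjoint_left.1 ((hA j).1.2.1 k hjk.symm) h' hfk⟩
    · rw [not_nonempty_iff_eq_empty] at hne
      rw [hne, hVin0]
      simp
  have hside : ∀ u, ∀ i, (∃ X, T.Cl B l i X ∧ u ∈ T.Vbd X) → u ∈ T.Vin (A i) ∨ u ∈ T.Vbd (A i) := by
    intro u i hX
    obtain ⟨X, hX, huX⟩ := hX
    have hsub : X ⊆ A i := (hA i).2 X hX
    obtain ⟨⟨f, hfX, huf⟩, -⟩ := tri4 X u huX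
    rcases tri1 (A i) u with h | h | h
    · exact Or.inl h
    · exact Or.inr h
    · exfalso
      simp only [Tri.Vin, mem_filter, mem_univ, true_and] at h
      exact (mem_compl.1 (h f huf)) (hsub hfX)
  have hinter : ∀ u i j, u ∈ T.Vin (A i) → u ∈ T.Vin (A j) → u ∈ T.Vin (A i ∩ A j) := by
    intro u i j hi hj
    simp only [Tri.Vin, mem_filter, mem_univ, true_and] at hi hj ⊢
    exact fun f hf => mem_inter.2 ⟨hi f hf, hj f hf⟩
  have hcov : (L.filter fun u => ∀ i, u ∈ T.Vin (B i)ᶜ) ⊆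
      (T.Vbd (A 0) ∪ T.Vbd (A 1) ∪ T.Vbd (A 2)) ∪
        (T.Vin (A 0 ∩ A 1) ∪ T.Vin (A 0 ∩ A 2) ∪ T.Vin (A 1 ∩ A 2)) := by
    intro u hu
    rw [mem_filter] at hu
    obtain ⟨i, j, hij, hXi, hXj⟩ := hTypes V F T hS e l B u hB (hL u hu.1) hu.2
    have hi := hside u i hXi
    have hj := hside u j hXj
    have hv : ∀ i : Fin 3, u ∈ T.Vbd (A i) → u ∈ (T.Vbd (A 0) ∪ T.Vbd (A 1) ∪ T.Vbd (A 2)) ∪
        (T.Vin (A 0 ∩ A 1) ∪ T.Vin (A 0 ∩ A 2) ∪ T.Vin (A 1 ∩ A 2)) := by
      intro i hi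
      simp only [mem_union]
      fin_cases i
      · exact Or.inl (Or.inl (Or.inl hi))
      · exact Or.inl (Or.inl (Or.inr hi))
      · exact Or.inl (Or.inr hi)
    rcases hi with hi | hi
    · rcases hj with hj | hj
      · have key : ∀ i j : Fin 3, i < j → u ∈ T.Vin (A i) → u ∈ T.Vin (A j) →
            u ∈ (T.Vbd (A 0) ∪ T.Vbd (A 1) ∪ T.Vbd (A 2)) ∪
              (T.Vin (A 0 ∩ A 1) ∪ T.Vin (A 0 ∩ A 2) ∪ T.Vin (A 1 ∩ A 2)) := by
          intro i j hlt hi hj
          have h := hinter u i j hi hj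
          simp only [mem_union]
          fin_cases i <;> fin_cases j
          · exact absurd hlt (by decide)
          · exact Or.inr (Or.inl (Or.inl h))
          · exact Or.inr (Or.inl (Or.inr h))
          · exact absurd hlt (by decide)
          · exact absurd hlt (by decide)
          · exact Or.inr (Or.inr h)
          · exact absurd hlt (by decide)
          · exact absurd hlt (by decide)
          · exact absurd hlt (by decide)
        rcases lt_or_gt_of_ne hij with hlt | hlt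
        · exact key i j hlt hi hj
        · exact key j i hlt hj hi
      · exact hv j hj
    · exact hv i hi
  have h01 := hpair 0 1 2 (by decide) (by decide) (by decide)
  have h02 := hpair 0 2 1 (by decide) (by decide) (by decide)
  have h12 := hpair 1 2 0 (by decide) (by decide) (by decide)
  have c1 := card_le_card hcov
  have c2 := card_union_le (T.Vbd (A 0) ∪ T.Vbd (A 1) ∪ T.Vbd (A 2))
    (T.Vin (A 0 ∩ A 1) ∪ T.Vin (A 0 ∩ A 2) ∪ T.Vin (A 1 ∩ A 2))
  have c3 := card_union_le (T.Vbd (A 0) ∪ T.Vbd (A 1)) (T.Vbd (A 2))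
  have c4 := card_union_le (T.Vbd (A 0)) (T.Vbd (A 1))
  have c5 := card_union_le (T.Vin (A 0 ∩ A 1) ∪ T.Vin (A 0 ∩ A 2)) (T.Vin (A 1 ∩ A 2))
  have c6 := card_union_le (T.Vin (A 0 ∩ A 1)) (T.Vin (A 0 ∩ A 2))
  have b0 := hVbd 0
  have b1 := hVbd 1
  have b2 := hVbd 2
  omega

end Pool.Agent.Helper64.FF
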